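import Pool.Agent.H82.AS.Targets2
import Pool.Agent.H20.AS.TLB

/-! TIR: the triples with radical at most `R` and height between `μ` and `R ^ (7 / 18)`. -/

set_option autoImplicit false

open Pool.Agent.H38.RB Pool.Agent.H38.PS Pool.Agent.H82.AS

namespace Pool.Agent.H1.AS

open Pool.Agent.H20.AS.TLB

/-- The triples with given divisors, of height larger than `μ`. -/
def TirB (d : Fin 3 → ℕ) (T H μ : ℝ) : Set (Fin 3 → ℤ) :=
  {x | Adm x ∧ (∀ i, (d i : ℤ) ∣ x i) ∧ (pr x : ℝ) ≤ T ∧ μ < (ht x : ℝ) ∧ (ht x : ℝ) ≤ H}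

theorem tir_min {a b θ : ℝ} (ha : 0 < a) (hb : 0 < b) (h0 : 0 ≤ θ) (h1 : θ ≤ 1) :
    min a b ≤ a ^ θ * b ^ (1 - θ) := by
  rcases le_total a b with h | h
  · rw [min_eq_left h]
    calc a = a ^ θ * a ^ (1 - θ) := by
          rw [← Real.rpow_add ha]
          simp
      _ ≤ a ^ θ * b ^ (1 - θ) := by
          apply mul_le_mul_of_nonneg_left _ (by positivity)
          exact Real.rpow_le_rpow ha.le h (by linarith)
  · rw [min_eq_right h]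
    calc b = b ^ θ * b ^ (1 - θ) := by
          rw [← Real.rpow_add hb]
          simp
      _ ≤ a ^ θ * b ^ (1 - θ) := by
          apply mul_le_mul_of_nonneg_right _ (by positivity)
          exact Real.rpow_le_rpow hb.le h h0

theorem tir_min' {R E μ θ : ℝ} (hR : 0 < R) (hE : 0 < E) (hμ : 0 < μ) (h0 : 0 ≤ θ) (h1 : θ ≤ 1) :
    min (R * E / μ) ((R * E) ^ (2 / 3 : ℝ)) ≤
      R ^ ((2 + θ) / 3) * μ ^ (-θ) * E ^ ((2 + θ) / 3) := by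
  have hRE : 0 < R * E := mul_pos hR hE
  refine (tir_min (by positivity) (by positivity) h0 h1).trans (le_of_eq ?_)
  rw [Real.div_rpow hRE.le hμ.le, ← Real.rpow_mul hRE.le, Real.rpow_neg hμ.le]
  have e1 : (R * E) ^ θ * (R * E) ^ (2 / 3 * (1 - θ)) = (R * E) ^ ((2 + θ) / 3) := by
    rw [← Real.rpow_add hRE]
    congr 1
    ring
  rw [div_mul_eq_mul_div, e1, Real.mul_rpow hR.le hE.le]
  ring

theorem pf_TIR (hB : T_BXM) (hSQ : T_SQB) (hSU : T_SQU) (hST : T_SQT) (hDV : T_DVB) : T_TIR := by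
  classical
  intro θ hθ0 hθ1
  obtain ⟨e, CU, he, hCU, hSU⟩ := hSU θ hθ0 hθ1
  obtain ⟨δ, hδdef⟩ : ∃ δ : ℝ, δ = min (e / 3) (1 / 200) := ⟨_, rfl⟩
  have hδ : 0 < δ := by rw [hδdef]; positivity
  have hδe : 3 * δ ≤ e := by
    have : δ ≤ e / 3 := by rw [hδdef]; exact min_le_left _ _
    linarith
  have hδ1 : δ ≤ 1 / 200 := by rw [hδdef]; exact min_le_right _ _
  obtain ⟨CB, hCB, hB⟩ := hB
  obtain ⟨CT, hCT, hST⟩ := hST δ hδ
  obtain ⟨CD, hCD, hDV⟩ := hDV δ hδ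
  refine ⟨CD ^ 3 * CB * CU + CD ^ 3 * CB * (2 ^ δ / δ) * CT, by positivity, ?_⟩
  intro R μ hR hμ
  have hR0 : 0 < R := by linarith
  obtain ⟨H, hHdef⟩ : ∃ H : ℝ, H = max 2 (R ^ (7 / 18 : ℝ)) := ⟨_, rfl⟩
  have hH2 : 2 ≤ H := by rw [hHdef]; exact le_max_left _ _
  have hHX : R ^ (7 / 18 : ℝ) ≤ H := by rw [hHdef]; exact le_max_right _ _
  have hH2X : H ≤ 2 * R := by
    rw [hHdef]
    apply max_le (by linarith)
    calc R ^ (7 / 18 : ℝ) ≤ R ^ (1 : ℝ) := Real.rpow_le_rpow_of_exponent_le hR (by norm_num)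
      _ = R := Real.rpow_one R
      _ ≤ 2 * R := by linarith
  have hlog0 : 0 ≤ Real.log H := Real.log_nonneg (by linarith)
  have hlog : Real.log H ≤ 2 ^ δ / δ * R ^ δ := by
    calc Real.log H ≤ H ^ δ / δ := Real.log_le_rpow_div (by linarith) hδ
      _ ≤ (2 * R) ^ δ / δ :=
        div_le_div_of_nonneg_right (Real.rpow_le_rpow (by linarith) hH2X hδ.le) hδ.le
      _ = 2 ^ δ / δ * R ^ δ := by
        rw [Real.mul_rpow (by norm_num) hR0.le]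
        ring
  obtain ⟨W, hWdef⟩ : ∃ W : ℝ, W = R ^ (7 / 6 : ℝ) := ⟨_, rfl⟩
  have hW1 : 1 ≤ W := by rw [hWdef]; exact Real.one_le_rpow hR (by norm_num)
  obtain ⟨F, hFdef⟩ : ∃ F : Finset ℕ, F = (Finset.Icc 1 ⌊W⌋₊).filter
    fun D => Sqf D := ⟨_, rfl⟩
  have hFm : ∀ D, D ∈ F ↔ (1 ≤ D ∧ D ≤ ⌊W⌋₊) ∧ Sqf D := by
    intro D
    rw [hFdef, Finset.mem_filter, Finset.mem_Icc]
  have hFW : ∀ D ∈ F, (D : ℝ) ≤ W := fun D hD =>
    (by exact_mod_cast ((hFm D).1 hD).1.2 : (D : ℝ) ≤ (⌊W⌋₊ : ℝ)).trans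
      (Nat.floor_le (by linarith))
  have hex1 : ∀ D ∈ F, 1 ≤ ex D := fun D hD =>
    ((hSQ D ((hFm D).1 hD).1.1).2.2.2.2.1 D dvd_rfl).1
  obtain ⟨S, hSdef⟩ : ∃ S : Set (Fin 3 → ℤ), S = {x | Adm x ∧ (pd (pr x).primeFactors : ℝ) ≤ R ∧
    μ < (ht x : ℝ) ∧ (ht x : ℝ) ≤ R ^ (7 / 18 : ℝ)} := ⟨_, rfl⟩
  rw [← hSdef]
  have hcov : S ⊆ ⋃ D ∈ F, ⋃ d ∈ Fc D, TirB d (R * ex D) H μ := by
    intro x hx
    rw [hSdef] at hx
    obtain ⟨hA, hrad, hm, hh⟩ := hx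
    have hTL : x ∈ TL R 0 := by
      refine ⟨hA, hrad, 1, fun p hp h1 => ?_, one_dvd _, by norm_num⟩
      exact absurd (Nat.dvd_one.1 h1) hp.one_lt.ne'
    obtain ⟨D, ⟨hD1, hDW, hDs, hDY⟩, d, hd, hxB⟩ := cover hSQ hR hHX hTL hh
    rw [← hWdef] at hDW
    simp only [Set.mem_iUnion]
    exact ⟨D, (hFm D).2 ⟨⟨hD1, hDW⟩, hDs⟩, d, hd, hxB.1, hxB.2.1, hxB.2.2.1, hm, hxB.2.2.2⟩
  obtain ⟨A, hAdef⟩ : ∃ A : ℝ, A = R ^ ((2 + θ) / 3) * μ ^ (-θ) := ⟨_, rfl⟩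
  have hA0 : 0 < A := by rw [hAdef]; positivity
  have hBd : ∀ D ∈ F, ∀ d ∈ Fc D, (TirB d (R * ex D) H μ).Finite ∧
      ((TirB d (R * ex D) H μ).ncard : ℝ) ≤
        CB * (A * ex D ^ ((2 + θ) / 3) / D + Real.log H) := by
    intro D hD d hd
    obtain ⟨hd1, hd2, hd3⟩ := mem_Fc.1 hd
    have hE := hex1 D hD
    have hD0 : (0 : ℝ) < D := by exact_mod_cast ((hFm D).1 hD).1.1
    have hT : 1 ≤ R * ex D := by nlinarith
    obtain ⟨g1, g2⟩ := hB d (R * ex D) H μ (fun i => Nat.pos_of_mem_divisors (hd1 i)) hd3 hT hH2 hμ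
    refine ⟨g1, g2.trans ?_⟩
    have e1 : (d 0 : ℝ) * d 1 * d 2 = D := by exact_mod_cast hd2
    rw [e1]
    apply mul_le_mul_of_nonneg_left _ hCB.le
    have h2 := tir_min' hR0 (show 0 < ex D by linarith) hμ hθ0 hθ1.le
    rw [← hAdef] at h2
    have h3 := div_le_div_of_nonneg_right h2 hD0.le
    linarith
  have hfin : (⋃ D ∈ F, ⋃ d ∈ Fc D, TirB d (R * ex D) H μ).Finite :=
    Set.Finite.biUnion F.finite_toSet fun D hD =>
      Set.Finite.biUnion (Fc D).finite_toSet fun d hd => (hBd D hD d hd).1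
  refine ⟨hfin.subset hcov, ?_⟩
  have hcard : ((⋃ D ∈ F, ⋃ d ∈ Fc D, TirB d (R * ex D) H μ).ncard : ℝ) ≤
      ∑ D ∈ F, ∑ d ∈ Fc D, ((TirB d (R * ex D) H μ).ncard : ℝ) := by
    have h1 : (⋃ D ∈ F, ⋃ d ∈ Fc D, TirB d (R * ex D) H μ).ncard ≤
        ∑ D ∈ F, ∑ d ∈ Fc D, (TirB d (R * ex D) H μ).ncard :=
      (Finset.set_ncard_biUnion_le F _).trans
        (Finset.sum_le_sum fun D _ => Finset.set_ncard_biUnion_le (Fc D) _)
    exact_mod_cast h1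
  have hDle : ∀ D ∈ F, ∑ d ∈ Fc D, ((TirB d (R * ex D) H μ).ncard : ℝ) ≤
      CD ^ 3 * CB * A * ((D : ℝ) ^ e * ex D ^ ((2 + θ) / 3) / D) +
        CD ^ 3 * CB * (2 ^ δ / δ) * R ^ (9 / 2 * δ) := by
    intro D hD
    have hD1 := ((hFm D).1 hD).1.1
    have hD1' : (1 : ℝ) ≤ D := by exact_mod_cast hD1
    have hE := hex1 D hD
    have h1 : ((Fc D).card : ℝ) ≤ CD ^ 3 * (D : ℝ) ^ (3 * δ) := by
      calc ((Fc D).card : ℝ) ≤ (D.divisors.card : ℝ) ^ 3 := by exact_mod_cast card_Fc D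
        _ ≤ (CD * (D : ℝ) ^ δ) ^ 3 := pow_le_pow_left₀ (Nat.cast_nonneg _) (hDV D hD1) 3
        _ = CD ^ 3 * (D : ℝ) ^ (3 * δ) := by
          rw [mul_pow, ← Real.rpow_natCast ((D : ℝ) ^ δ) 3, ← Real.rpow_mul (by linarith)]
          congr 2
          push_cast
          ring
    have h2 : (D : ℝ) ^ (3 * δ) ≤ (D : ℝ) ^ e := Real.rpow_le_rpow_of_exponent_le hD1' hδe
    have h3 : (D : ℝ) ^ (3 * δ) ≤ R ^ (7 / 2 * δ) := by
      calc (D : ℝ) ^ (3 * δ) ≤ W ^ (3 * δ) :=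
            Real.rpow_le_rpow (Nat.cast_nonneg _) (hFW D hD) (by positivity)
        _ = R ^ (7 / 2 * δ) := by
          rw [hWdef, ← Real.rpow_mul hR0.le]
          congr 1
          ring
    have h4 : 0 ≤ A * ex D ^ ((2 + θ) / 3) / D := by positivity
    calc ∑ d ∈ Fc D, ((TirB d (R * ex D) H μ).ncard : ℝ)
        ≤ ∑ _d ∈ Fc D, CB * (A * ex D ^ ((2 + θ) / 3) / D + Real.log H) :=
          Finset.sum_le_sum fun d hd => (hBd D hD d hd).2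
      _ = (Fc D).card * (CB * (A * ex D ^ ((2 + θ) / 3) / D + Real.log H)) := by
          rw [Finset.sum_const, nsmul_eq_mul]
      _ ≤ (CD ^ 3 * (D : ℝ) ^ (3 * δ)) * (CB * (A * ex D ^ ((2 + θ) / 3) / D + Real.log H)) := by
          apply mul_le_mul_of_nonneg_right h1
          positivity
      _ = CD ^ 3 * CB * ((D : ℝ) ^ (3 * δ) * (A * ex D ^ ((2 + θ) / 3) / D)) +
          CD ^ 3 * CB * ((D : ℝ) ^ (3 * δ) * Real.log H) := by ring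
      _ ≤ CD ^ 3 * CB * ((D : ℝ) ^ e * (A * ex D ^ ((2 + θ) / 3) / D)) +
          CD ^ 3 * CB * (R ^ (7 / 2 * δ) * (2 ^ δ / δ * R ^ δ)) := by
          apply add_le_add
          · apply mul_le_mul_of_nonneg_left _ (by positivity)
            exact mul_le_mul_of_nonneg_right h2 h4
          · apply mul_le_mul_of_nonneg_left _ (by positivity)
            exact mul_le_mul h3 hlog hlog0 (by positivity)
      _ = CD ^ 3 * CB * A * ((D : ℝ) ^ e * ex D ^ ((2 + θ) / 3) / D) +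
          CD ^ 3 * CB * (2 ^ δ / δ) * R ^ (9 / 2 * δ) := by
          have e1 : R ^ (9 / 2 * δ) = R ^ (7 / 2 * δ) * R ^ δ := by
            rw [← Real.rpow_add hR0]
            congr 1
            ring
          rw [e1]
          ring
  have hsum1 : ∑ D ∈ F, (D : ℝ) ^ e * ex D ^ ((2 + θ) / 3) / D ≤ CU :=
    hSU F fun D hD => ⟨((hFm D).1 hD).2, ((hFm D).1 hD).1.1⟩
  have hsum2 : (F.card : ℝ) ≤ CT * R ^ (7 / 6 * (1 / 2 + δ)) := by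
    have h1 := (hST W F hW1 fun D hD => ⟨((hFm D).1 hD).2, ((hFm D).1 hD).1.1, hFW D hD⟩).1
    rw [hWdef, ← Real.rpow_mul hR0.le] at h1
    exact h1
  have hle : ((S.ncard : ℕ) : ℝ) ≤ ((⋃ D ∈ F, ⋃ d ∈ Fc D, TirB d (R * ex D) H μ).ncard : ℝ) := by
    exact_mod_cast Set.ncard_le_ncard hcov hfin
  have f2 : R ^ (9 / 2 * δ) * R ^ (7 / 6 * (1 / 2 + δ)) ≤ R ^ (5 / 8 : ℝ) := by
    rw [← Real.rpow_add hR0]
    exact Real.rpow_le_rpow_of_exponent_le hR (by linarith)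
  rw [← hAdef]
  calc ((S.ncard : ℕ) : ℝ) ≤ ((⋃ D ∈ F, ⋃ d ∈ Fc D, TirB d (R * ex D) H μ).ncard : ℝ) := hle
    _ ≤ ∑ D ∈ F, ∑ d ∈ Fc D, ((TirB d (R * ex D) H μ).ncard : ℝ) := hcard
    _ ≤ ∑ D ∈ F, (CD ^ 3 * CB * A * ((D : ℝ) ^ e * ex D ^ ((2 + θ) / 3) / D) +
        CD ^ 3 * CB * (2 ^ δ / δ) * R ^ (9 / 2 * δ)) := Finset.sum_le_sum hDle
    _ = CD ^ 3 * CB * A * (∑ D ∈ F, (D : ℝ) ^ e * ex D ^ ((2 + θ) / 3) / D) +
        CD ^ 3 * CB * (2 ^ δ / δ) * (R ^ (9 / 2 * δ) * F.card) := by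
        rw [Finset.sum_add_distrib, ← Finset.mul_sum, Finset.sum_const, nsmul_eq_mul]
        ring
    _ ≤ CD ^ 3 * CB * A * CU +
        CD ^ 3 * CB * (2 ^ δ / δ) * (R ^ (9 / 2 * δ) * (CT * R ^ (7 / 6 * (1 / 2 + δ)))) := by
        apply add_le_add
        · exact mul_le_mul_of_nonneg_left hsum1 (by positivity)
        · apply mul_le_mul_of_nonneg_left _ (by positivity)
          exact mul_le_mul_of_nonneg_left hsum2 (by positivity)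
    _ = CD ^ 3 * CB * CU * A +
        CD ^ 3 * CB * (2 ^ δ / δ) * CT * (R ^ (9 / 2 * δ) * R ^ (7 / 6 * (1 / 2 + δ))) := by ring
    _ ≤ CD ^ 3 * CB * CU * A + CD ^ 3 * CB * (2 ^ δ / δ) * CT * R ^ (5 / 8 : ℝ) := by
        gcongr
    _ ≤ (CD ^ 3 * CB * CU + CD ^ 3 * CB * (2 ^ δ / δ) * CT) * (A + R ^ (5 / 8 : ℝ)) := by
        have h1 : 0 ≤ CD ^ 3 * CB * CU * R ^ (5 / 8 : ℝ) := by positivity
        have h2 : 0 ≤ CD ^ 3 * CB * (2 ^ δ / δ) * CT * A := by positivity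
        nlinarith

end Pool.Agent.H1.AS
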